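import Mathlib

/-!
# The parameters of the bound for queried symbols

For all large `n` there are a number `m` of letters, a field of `Q = p ^ s` elements and a dimension `e` with everything
that is needed; the number `k = Q ^ e` of cells is between `n ^ 5` and `n ^ 6`.
-/

set_option autoImplicit false

namespace Pool.Agent.Helper98.NB

/-- For all constants `R` and `A`, `R * (log n) ^ 6 ≤ sqrt n` and `A ≤ log n` for all large `n`. -/
theorem eventually_log (R A : ℝ) (hR : 0 < R) : ∃ n0 : ℕ, ∀ n : ℕ, n0 ≤ n →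
    (1 ≤ Real.log n ∧ A ≤ Real.log n) ∧ R * Real.log n ^ 6 ≤ Real.sqrt n := by
  have h1 := (isLittleO_log_rpow_rpow_atTop (6 : ℝ) (show (0 : ℝ) < 1 / 2 by norm_num)).bound
    (show (0 : ℝ) < 1 / R by positivity)
  have h2 := (tendsto_natCast_atTop_atTop (R := ℝ)).eventually h1
  have h3 := (tendsto_natCast_atTop_atTop (R := ℝ)).eventually
    (Real.tendsto_log_atTop.eventually ((Filter.eventually_ge_atTop (1 : ℝ)).and
      (Filter.eventually_ge_atTop A)))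
  obtain ⟨n0, hn0⟩ := Filter.eventually_atTop.1 (h2.and h3)
  refine ⟨n0, fun n hn => ?_⟩
  obtain ⟨ha, hb⟩ := hn0 n hn
  refine ⟨hb, ?_⟩
  have hL : (0 : ℝ) ≤ Real.log n := by linarith [hb.1]
  rw [Real.norm_of_nonneg (Real.rpow_nonneg hL _), Real.norm_of_nonneg (Real.rpow_nonneg (by positivity) _),
    ← Real.sqrt_eq_rpow] at ha
  have h6 : Real.log n ^ (6 : ℝ) = Real.log n ^ 6 := by
    rw [show (6 : ℝ) = ((6 : ℕ) : ℝ) by norm_num, Real.rpow_natCast]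
  rw [h6] at ha
  calc R * Real.log n ^ 6 ≤ R * (1 / R * Real.sqrt n) := mul_le_mul_of_nonneg_left ha hR.le
    _ = Real.sqrt n := by field_simp

/-- The parameters, with a number of elements `p ^ s ≥ R (log n) ^ 2` for any given `R`. -/
theorem parameters_gen (p : ℕ) (hp : 2 ≤ p) (δ : ℝ) (hδ : 0 < δ) (R : ℝ) : ∃ n0 : ℕ, ∀ n ≥ n0, ∃ m s e : ℕ,
    1 ≤ m ∧ 1 ≤ s ∧ 1 ≤ e ∧ 2 * Real.log n / m ≤ δ / 2 ∧ (2 * (e * (2 * m) : ℕ) : ℝ) ≤ δ * (p ^ s : ℕ) ∧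
      (6 * (m * (p ^ s : ℕ)) ^ 2 : ℝ) ≤ Real.sqrt n ∧ n ^ 5 ≤ (p ^ s) ^ e ∧ (p ^ s) ^ e ≤ n ^ 6 ∧
      n * (n + 1) * m ≤ (p ^ s) ^ e ∧
      ((n * (n + 1) * m) * (p ^ s) ^ 2) ^ 2 ≤ (p ^ s) ^ e * (p ^ s) ^ 2 ∧
      (p ^ s) ^ e * (p ^ s) ^ 2 ≤ n ^ 7 ∧ (p ^ s) ^ 2 ≤ (p ^ s) ^ e ∧ 2 * m * e ≤ p ^ s ∧
      (m : ℝ) ≤ Real.log n ^ 2 ∧ (p ^ s) ^ 2 ≤ n ∧ 1 ≤ Real.log n ∧ (m : ℝ) ≤ (4 / δ + 1) * Real.log n ∧
      R * Real.log n ^ 2 ≤ (p ^ s : ℕ) := by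
  have hp2 : (2 : ℝ) ≤ p := by exact_mod_cast hp
  have hp1 : (1 : ℝ) < p := by linarith
  set A : ℝ := 4 / δ + 1 with hA
  have hA0 : 0 < A := by positivity
  set C : ℝ := 36 * A / δ + 36 * A + |R| with hC
  have hC0 : 0 < C := by positivity
  obtain ⟨n0, hn0⟩ := eventually_log (6 * (A * (p * (C + 1))) ^ 2) A (by positivity)
  refine ⟨max n0 1, fun n hn => ?_⟩
  obtain ⟨⟨hL, hLA⟩, hR⟩ := hn0 n (le_trans (le_max_left _ _) hn)
  have hn1 : 1 ≤ n := le_trans (le_max_right _ _) hn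
  have hn1' : (1 : ℝ) ≤ n := by exact_mod_cast hn1
  set L : ℝ := Real.log n with hLdef
  have hL0 : 0 < L := by linarith
  -- the number of letters
  obtain ⟨m, hm1, hm2⟩ : ∃ m : ℕ, 4 * L / δ ≤ m ∧ (m : ℝ) ≤ A * L := by
    refine ⟨⌈4 * L / δ⌉₊, Nat.le_ceil _, ?_⟩
    have h := Nat.ceil_lt_add_one (show (0 : ℝ) ≤ 4 * L / δ by positivity)
    have h' : 4 * L / δ + 1 ≤ A * L := by
      have : A * L = 4 * L / δ + L := by rw [hA]; ring
      linarith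
    linarith
  have hm0 : (0 : ℝ) < m := lt_of_lt_of_le (by positivity) hm1
  have hm1' : 1 ≤ m := by exact_mod_cast hm0
  -- the field
  obtain ⟨s, hs1, hs2⟩ := exists_nat_pow_near (show (1 : ℝ) ≤ C * L ^ 2 + 1 by
    have : 0 ≤ C * L ^ 2 := by positivity
    linarith) hp1
  have hQlow : C * L ^ 2 ≤ ((p ^ (s + 1) : ℕ) : ℝ) := by push_cast; linarith
  have hL2 : (1 : ℝ) ≤ L ^ 2 := by nlinarith
  have hQup : ((p ^ (s + 1) : ℕ) : ℝ) ≤ p * (C + 1) * L ^ 2 := by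
    push_cast
    rw [pow_succ]
    calc (p : ℝ) ^ s * p ≤ (C * L ^ 2 + 1) * p := mul_le_mul_of_nonneg_right hs1 (by linarith)
      _ ≤ ((C + 1) * L ^ 2) * p := by
        apply mul_le_mul_of_nonneg_right _ (by linarith)
        nlinarith
      _ = p * (C + 1) * L ^ 2 := by ring
  set Q : ℕ := p ^ (s + 1) with hQ
  have hQ2 : 2 ≤ Q := le_trans hp (Nat.le_self_pow (Nat.succ_ne_zero s) p)
  have hQ2' : (2 : ℝ) ≤ Q := by exact_mod_cast hQ2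
  -- the bound for the square root
  have hsq : (6 * (m * (Q : ℕ)) ^ 2 : ℝ) ≤ Real.sqrt n := by
    refine le_trans ?_ hR
    have h1 : (m : ℝ) * Q ≤ A * L * (p * (C + 1) * L ^ 2) :=
      mul_le_mul hm2 hQup (by positivity) (by positivity)
    have h2 : ((m : ℝ) * Q) ^ 2 ≤ (A * L * (p * (C + 1) * L ^ 2)) ^ 2 :=
      pow_le_pow_left₀ (by positivity) h1 2
    calc (6 * ((m : ℝ) * Q) ^ 2 : ℝ) ≤ 6 * (A * L * (p * (C + 1) * L ^ 2)) ^ 2 := by linarith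
      _ = 6 * (A * (p * (C + 1))) ^ 2 * L ^ 6 := by ring
  have hQn : (Q : ℝ) ≤ n := by
    have h1 : (Q : ℝ) ≤ 6 * (m * (Q : ℕ)) ^ 2 := by
      have hm1r : (1 : ℝ) ≤ m := by exact_mod_cast hm1'
      have h3 : (Q : ℝ) ≤ m * Q := by nlinarith
      have h4 : (1 : ℝ) ≤ m * Q := by linarith
      nlinarith
    have h2 : Real.sqrt n ≤ n := by
      rw [Real.sqrt_le_left (by linarith)]
      nlinarith
    linarith
  have hQn' : Q ≤ n := by exact_mod_cast hQn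
  -- the dimension
  obtain ⟨e, he1, he2⟩ := exists_nat_pow_near (show (1 : ℝ) ≤ (n : ℝ) ^ 5 from one_le_pow₀ hn1')
    (show (1 : ℝ) < (Q : ℝ) by linarith)
  have he1' : Q ^ e ≤ n ^ 5 := by exact_mod_cast he1
  have he2' : n ^ 5 ≤ Q ^ (e + 1) := by exact_mod_cast he2.le
  have he9 : ((e + 1 : ℕ) : ℝ) ≤ 9 * L := by
    have h1 : (e : ℝ) * Real.log Q ≤ 5 * L := by
      have := Real.log_le_log (by positivity) he1
      rw [Real.log_pow, Real.log_pow] at this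
      exact_mod_cast this
    have h2 : (0.6931471803 : ℝ) < Real.log Q :=
      lt_of_lt_of_le Real.log_two_gt_d9 (Real.log_le_log (by norm_num) hQ2')
    have h3 : (e : ℝ) * 0.6931471803 ≤ 5 * L :=
      le_trans (mul_le_mul_of_nonneg_left h2.le (by positivity)) h1
    push_cast
    nlinarith
  have h9 : ((e + 1 : ℕ) : ℝ) * m ≤ 9 * L * (A * L) := mul_le_mul he9 hm2 (by positivity) (by positivity)
  -- the square of `m * Q`
  have hmQ : (m : ℝ) ^ 2 * (Q : ℝ) ^ 2 ≤ n / 6 := by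
    have h2 : Real.sqrt n ≤ n := by
      rw [Real.sqrt_le_left (by linarith)]
      nlinarith
    have h3 : (6 * ((m : ℝ) * Q) ^ 2 : ℝ) ≤ n := le_trans hsq h2
    rw [mul_pow] at h3
    linarith
  have hmQn : 6 * (m ^ 2 * Q ^ 2) ≤ n := by
    have : ((6 * (m ^ 2 * Q ^ 2) : ℕ) : ℝ) ≤ n := by
      push_cast
      linarith
    exact_mod_cast this
  have hm2n : 6 * m ≤ n := by
    have h1 : m ≤ m ^ 2 * Q ^ 2 := by
      calc m = m * 1 := (mul_one m).symm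
        _ ≤ m * (m * Q ^ 2) := Nat.mul_le_mul_left m (Nat.mul_pos hm1' (by positivity))
        _ = m ^ 2 * Q ^ 2 := by ring
    omega
  have hQ2n : Q ^ 2 ≤ n := by
    have h1 : Q ^ 2 ≤ m ^ 2 * Q ^ 2 := Nat.le_mul_of_pos_left _ (by positivity)
    omega
  have hn3 : n * (n + 1) * m ≤ n ^ 3 := by
    calc n * (n + 1) * m ≤ n * (2 * n) * m := by
          apply Nat.mul_le_mul_right
          apply Nat.mul_le_mul_left
          omega
      _ = n ^ 2 * (2 * m) := by ring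
      _ ≤ n ^ 2 * n := Nat.mul_le_mul_left _ (by omega)
      _ = n ^ 3 := by ring
  have hQe6 : Q ^ (e + 1) ≤ n ^ 6 := by
    calc Q ^ (e + 1) = Q ^ e * Q := pow_succ _ _
      _ ≤ n ^ 5 * n := Nat.mul_le_mul he1' hQn'
      _ = n ^ 6 := by ring
  refine ⟨m, s + 1, e + 1, hm1', Nat.succ_pos _, Nat.succ_pos _, ?_, ?_, hsq, he2', hQe6,
    le_trans (le_trans hn3 (Nat.pow_le_pow_right hn1 (by norm_num))) he2', ?_, ?_, ?_, ?_, ?_, hQ2n,
    hL, hm2, ?_⟩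
  · rw [div_le_div_iff₀ hm0 (by norm_num)]
    rw [div_le_iff₀ hδ] at hm1
    linarith
  · have h2 : (2 * (((e + 1) * (2 * m) : ℕ) : ℝ)) = 4 * (((e + 1 : ℕ) : ℝ) * m) := by
      push_cast; ring
    rw [h2]
    calc (4 * (((e + 1 : ℕ) : ℝ) * m)) ≤ 4 * (9 * L * (A * L)) := by linarith
      _ = δ * (36 * A / δ * L ^ 2) := by field_simp; ring
      _ ≤ δ * (C * L ^ 2) := by
        apply mul_le_mul_of_nonneg_left _ hδ.le
        apply mul_le_mul_of_nonneg_right _ (by positivity)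
        rw [hC]
        have : 0 < 36 * A := by positivity
        linarith [abs_nonneg R]
      _ ≤ δ * (Q : ℕ) := mul_le_mul_of_nonneg_left hQlow hδ.le
  · calc ((n * (n + 1) * m) * Q ^ 2) ^ 2 = n ^ 2 * (n + 1) ^ 2 * (m ^ 2 * Q ^ 2) * Q ^ 2 := by ring
      _ ≤ n ^ 2 * (2 * n) ^ 2 * (m ^ 2 * Q ^ 2) * Q ^ 2 := by
        apply Nat.mul_le_mul_right
        apply Nat.mul_le_mul_right
        apply Nat.mul_le_mul_left
        apply Nat.pow_le_pow_left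
        omega
      _ = n ^ 4 * (4 * (m ^ 2 * Q ^ 2)) * Q ^ 2 := by ring
      _ ≤ n ^ 4 * n * Q ^ 2 := by
        apply Nat.mul_le_mul_right
        apply Nat.mul_le_mul_left
        omega
      _ = n ^ 5 * Q ^ 2 := by ring
      _ ≤ Q ^ (e + 1) * Q ^ 2 := Nat.mul_le_mul_right _ he2'
  · calc Q ^ (e + 1) * Q ^ 2 ≤ n ^ 6 * n := Nat.mul_le_mul hQe6 hQ2n
      _ = n ^ 7 := by ring
  · calc Q ^ 2 ≤ n := hQ2n
      _ ≤ n ^ 5 := Nat.le_self_pow (by norm_num) n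
      _ ≤ Q ^ (e + 1) := he2'
  · have h1 : ((2 * m * (e + 1) : ℕ) : ℝ) ≤ Q := by
      have h2 : ((2 * m * (e + 1) : ℕ) : ℝ) = 2 * (((e + 1 : ℕ) : ℝ) * m) := by push_cast; ring
      rw [h2]
      calc 2 * (((e + 1 : ℕ) : ℝ) * m) ≤ 2 * (9 * L * (A * L)) := by linarith
        _ = 18 * A * L ^ 2 := by ring
        _ ≤ C * L ^ 2 := by
          apply mul_le_mul_of_nonneg_right _ (by positivity)
          have : 0 < 36 * A / δ := by positivity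
          rw [hC]
          linarith [abs_nonneg R]
        _ ≤ Q := hQlow
    exact_mod_cast h1
  · calc (m : ℝ) ≤ A * L := hm2
      _ ≤ L * L := mul_le_mul_of_nonneg_right hLA hL0.le
      _ = L ^ 2 := by ring
  · refine le_trans (mul_le_mul_of_nonneg_right ?_ (by positivity)) hQlow
    have h1 : 0 < 36 * A / δ := by positivity
    have h2 : 0 < 36 * A := by positivity
    rw [hC]
    linarith [le_abs_self R]

/-- B16c: the parameters. -/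
theorem parameters (p : ℕ) (hp : 2 ≤ p) (δ : ℝ) (hδ : 0 < δ) : ∃ n0 : ℕ, ∀ n ≥ n0, ∃ m s e : ℕ,
    1 ≤ m ∧ 1 ≤ s ∧ 1 ≤ e ∧ 2 * Real.log n / m ≤ δ / 2 ∧ (2 * (e * (2 * m) : ℕ) : ℝ) ≤ δ * (p ^ s : ℕ) ∧
      (6 * (m * (p ^ s : ℕ)) ^ 2 : ℝ) ≤ Real.sqrt n ∧ n ^ 5 ≤ (p ^ s) ^ e ∧ (p ^ s) ^ e ≤ n ^ 6 ∧
      n * (n + 1) * m ≤ (p ^ s) ^ e ∧
      ((n * (n + 1) * m) * (p ^ s) ^ 2) ^ 2 ≤ (p ^ s) ^ e * (p ^ s) ^ 2 ∧
      (p ^ s) ^ e * (p ^ s) ^ 2 ≤ n ^ 7 ∧ (p ^ s) ^ 2 ≤ (p ^ s) ^ e ∧ 2 * m * e ≤ p ^ s ∧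
      (m : ℝ) ≤ Real.log n ^ 2 ∧ (p ^ s) ^ 2 ≤ n := by
  obtain ⟨n0, hn0⟩ := parameters_gen p hp δ hδ 0
  refine ⟨n0, fun n hn => ?_⟩
  obtain ⟨m, s, e, h1, h2, h3, h4, h5, h6, h7, h8, h9, h10, h11, h12, h13, h14, h15, -, -, -⟩ := hn0 n hn
  exact ⟨m, s, e, h1, h2, h3, h4, h5, h6, h7, h8, h9, h10, h11, h12, h13, h14, h15⟩

end Pool.Agent.Helper98.NB
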