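import Pool.Agent.Helper98.NF.PushHead
import Pool.Agent.Helper27.NB.Main
import Pool.Agent.Helper66.NB.Num

/-!
# The bound for pushdown programs which query symbols
-/

set_option autoImplicit false

namespace Pool.Agent.Helper98.NB

open Pool.Agent.Helper19.NF Pool.Agent.Helper27.NB
open Pool.Agent.Helper98.NF (sim size_le)
open Pool.Agent.Helper4.NF (large_of numbers_k')

variable {n m : ℕ} [NeZero m] {B Λ F Y : Type} [AddCommGroup B] [Fintype Λ] [Fintype B] [Fintype F] {ρ h a : ℕ}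

/-- **The bound for deterministic pushdown programs which run for at most `2 ^ t` steps.** -/
theorem push_bound (hn : 1 ≤ n) (H : Hide Λ F (Dir m → B) ρ h) (hah : a + h = Fintype.card Λ) (x0 : Pos n m → B)
    (h0 : Function.Injective x0) {Q Γ : Type} [Finite Q] [Finite Γ] (P : PProg (B × Λ) F Y Q Γ) (φ : B → Y)
    (p T : ℕ) (hφ : ∀ y, Nat.card {b // φ b = y} ≤ p) (x : ℝ) (hx : 0 < x) (t : ℕ) :
    (Nat.card {J : B × Λ → F // (∃ j ≤ 2 ^ t, P.act (P.conf J j).1 = .out (φ (out x0 (wd H J)))) ∧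
        Nat.card {b // P.Asks J b} ≤ T} : ℝ) ≤
      (((n * (n + 1) * m) ^ 2 + p) / Fintype.card B +
          n * m * (((T / (a + 1) : ℕ) : ℝ) / Fintype.card B) ^ m +
        ((10 * Nat.card Q ^ 2 * (Nat.card Γ + 1) * (2 ^ t + 1) ^ 4) ^ (t + 1) : ℕ) *
          (Real.exp x * (4 * m ^ 2 * ((T : ℝ) / Fintype.card B) / x +
          2 * m ^ 2 * n * (((T / (a + 1) : ℕ) : ℝ) / Fintype.card B) ^ m) ^ (n - 1))) *
        Nat.card (B × Λ → F) := by
  have : Nonempty Y := ⟨φ 0⟩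
  obtain ⟨N, hN, E, hE⟩ := sim (fun y : Y => (y, (0 : Fin 1))) P t
  have h1 := Pool.Agent.Helper27.NB.main_bound hn H hah x0 h0 E φ p T hφ x hx
  rw [Nat.cast_one, one_mul] at h1
  refine le_trans (Nat.cast_le.2 ?_) (h1.trans ?_)
  · refine Nat.card_le_card_of_injective (fun J => ⟨(0, J.1), ?_⟩) (fun J J' h => ?_)
    · obtain ⟨J, hJ, hT⟩ := J
      obtain ⟨h2, h3⟩ := hE J _ hJ
      exact ⟨h2, (Nat.card_le_card_of_injective (fun c : {b // E.Asks J (E.start 0) b} =>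
        (⟨c.1, h3 c.1 c.2⟩ : {b // P.Asks J b})) (fun c c' h => by simpa [Subtype.ext_iff] using h)).trans hT⟩
    · simpa [Subtype.ext_iff] using h
  · gcongr

/-- **Pushdown programs which query symbols.** A deterministic pushdown program with at most `2 ^ w` states and `2 ^ w`
stack symbols, `16 w ^ 2 ≤ n log n`, is right within `2 ^ w` steps and with at most `T` queried symbols on at most a
part `p / |B| + 1 / 50` of the inputs; here `T ≤ r ^ 2 |B|`, and at most `(1 - 2 (log n) / m) |B|` blocks can have more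
than `a` queried symbols. -/
theorem push_head (H : Hide Λ F (Dir m → B) ρ h) (hah : a + h = Fintype.card Λ) (x0 : Pos n m → B)
    (h0 : Function.Injective x0) {Q Γ : Type} [Finite Q] [Finite Γ] (P : PProg (B × Λ) F Y Q Γ) (φ : B → Y)
    (p T w r : ℕ) (hφ : ∀ y, Nat.card {b // φ b = y} ≤ p) (hr : 1 ≤ r) (hm : (6 * (m * r) ^ 2 : ℝ) ≤ Real.sqrt n)
    (hk : n ^ 5 ≤ Fintype.card B) (hT : (T : ℝ) ≤ r ^ 2 * Fintype.card B)
    (hT' : ((T / (a + 1) : ℕ) : ℝ) ≤ (1 - 2 * Real.log n / m) * Fintype.card B)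
    (hQ : Nat.card Q ≤ 2 ^ w) (hΓ : Nat.card Γ ≤ 2 ^ w) (hw : (16 * w ^ 2 : ℝ) ≤ n * Real.log n) :
    (Nat.card {J : B × Λ → F // (∃ j ≤ 2 ^ w, P.act (P.conf J j).1 = .out (φ (out x0 (wd H J)))) ∧
        Nat.card {b // P.Asks J b} ≤ T} : ℝ) ≤
      (p / Fintype.card B + 1 / 50) * Nat.card (B × Λ → F) := by
  have hk0 : (0 : ℝ) < Fintype.card B := by
    exact_mod_cast Fintype.card_pos_iff.2 (⟨0⟩ : Nonempty B)
  have hm1 : 1 ≤ m := Nat.one_le_iff_ne_zero.2 (NeZero.ne m)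
  have hK0 : (0 : ℝ) ≤ (T : ℝ) / Fintype.card B := by positivity
  have hK0' : (0 : ℝ) ≤ ((T / (a + 1) : ℕ) : ℝ) / Fintype.card B := by positivity
  have hK : (T : ℝ) / Fintype.card B ≤ r ^ 2 := (div_le_iff₀ hk0).2 hT
  have hK' : ((T / (a + 1) : ℕ) : ℝ) / Fintype.card B ≤ 1 - 2 * Real.log n / m := (div_le_iff₀ hk0).2 hT'
  have hr1 : (1 : ℝ) ≤ r := by exact_mod_cast hr
  have hm' : (6 * m ^ 2 : ℝ) ≤ Real.sqrt n := by
    refine le_trans ?_ hm
    have h1 : (m : ℝ) ^ 2 ≤ (m * r) ^ 2 := by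
      rw [mul_pow]
      exact le_mul_of_one_le_right (by positivity) (one_le_pow₀ hr1)
    linarith
  obtain ⟨h46, -, hl⟩ := large_of n m _ hm1 hK0' hK' hm'
  have hn0 : (0 : ℝ) < n := by linarith
  have hn : 1 ≤ n := by
    have : 0 < n := by exact_mod_cast hn0
    omega
  refine (push_bound hn H hah x0 h0 P φ p T hφ n hn0 w).trans (mul_le_mul_of_nonneg_right ?_ (Nat.cast_nonneg _))
  have h1 := numbers_k' n m 0 (Fintype.card B) _ hm1 hK0' hK' hm' hk (by omega)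
  have h2 := Pool.Agent.Helper66.NB.numbers_real n m r
    (((10 * Nat.card Q ^ 2 * (Nat.card Γ + 1) * (2 ^ w + 1) ^ 4) ^ (w + 1) : ℕ) : ℝ) _ _ (Nat.cast_nonneg _) hm1 hr
    hK0 hK hK0' hK' hm (size_le h46 hl hw hQ hΓ)
  rw [Nat.cast_zero, add_zero] at h1
  rw [add_div]
  linarith

end Pool.Agent.Helper98.NB
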