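import Pool.Agent.Helper27.NB.Cand
import Pool.Agent.Helper84.NB.Bound
import Pool.Agent.Helper98.NB.PushBound

/-!
# The bound for pushdown programs with the words written out (project NB, B18c)
-/

set_option autoImplicit false

namespace Pool.Agent.Helper98.NB

open Pool.Agent.Helper19.NF (out Dir PProg)
open Pool.Agent.Helper27.NB (word num num_injective num_lt wd)
open Pool.Agent.Helper27.NB.Cand (table)
open Pool.Agent.Helper84.NB (places exists_hide)
open Pool.Agent.Helper66.NB (ripe_part)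

/-- The size of the large field is divisible by the size of the small field. -/
theorem card_dvd (F K : Type) [Field F] [Fintype F] [Field K] [Fintype K] [Algebra F K] :
    Fintype.card F ∣ Fintype.card K := by
  rw [Module.card_eq_pow_finrank (K := F) (V := K)]
  exact dvd_pow_self _ (Module.finrank_pos (R := F) (M := K)).ne'

/-- **B18c: pushdown programs, with the words written out.** -/
theorem push_head_word {F K : Type} [Field F] [Fintype F] [Field K] [Fintype K] [Algebra F K] {n m e : ℕ} [NeZero m]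
    {Y Q Γ : Type} [Finite Q] [Finite Γ] (he : 1 ≤ e) (δ : ℝ) (hδ : 0 < δ) (hlog : 2 * Real.log n / m ≤ δ / 2)
    (hQ : (2 * (2 * m * e : ℕ) : ℝ) ≤ δ * Fintype.card K) (hQ' : 2 * m * e ≤ Fintype.card K)
    (hm2 : (6 * (m * Fintype.card K) ^ 2 : ℝ) ≤ Real.sqrt n) (hk : n ^ 5 ≤ Fintype.card K ^ e)
    (x0 : ZMod (n + 1) × ZMod m → Fin e → K) (h0 : Function.Injective x0) (φ : (Fin e → K) → Y) (p T w : ℕ)
    (hφ : ∀ y, Nat.card {b // φ b = y} ≤ p)
    (hT : (T : ℝ) ≤ (1 - 1 / Fintype.card F - δ) * (Fintype.card K ^ e * Fintype.card K ^ 2))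
    (hw : (16 * w ^ 2 : ℝ) ≤ n * Real.log n) (hcQ : Nat.card Q ≤ 2 ^ w) (hcΓ : Nat.card Γ ≤ 2 ^ w)
    (P : PProg ((Fin e → K) × (K × K)) F Y Q Γ) :
    (Nat.card {J : (Fin e → K) × (K × K) → F // (∃ j ≤ 2 ^ w, P.act (P.conf J j).1 = .out (φ (out x0 (table J)))) ∧
        Nat.card {b // P.Asks J b} ≤ T} : ℝ) ≤
      (p / (Fintype.card K : ℝ) ^ e + 1 / 50) * Nat.card ((Fin e → K) × (K × K) → F) := by
  classical
  have hq2 : 2 ≤ Fintype.card F := Fintype.one_lt_card
  have hm : 1 ≤ m := Nat.one_le_iff_ne_zero.2 (NeZero.ne m)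
  have hK1 : 1 ≤ Fintype.card K := Fintype.card_pos
  have hre : 2 * m * e = e * (2 * m) := by ring
  rw [hre] at hQ hQ'
  have hr1 : 1 ≤ e * (2 * m) := Nat.mul_pos he (by omega)
  obtain ⟨hp1, hp2⟩ := places (Q := Fintype.card K) hq2 hr1 hQ'
  have hcD : Fintype.card (Dir m) = 2 * m := by
    rw [Fintype.card_prod, Fintype.card_bool, ZMod.card]
  have hrip := ripe_part (Fintype.card F) (Fintype.card K) (e * (2 * m)) (Fintype.card K ^ e) T δ hq2 (card_dvd F K)
    hK1 hr1 (Nat.one_le_pow _ _ hK1) hδ (by exact_mod_cast hQ) (by rw [Nat.cast_pow]; exact hT)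
  have hex := exists_hide (F := F) (K := K) (D := Dir m) e he num num_injective num_lt (by rw [hcD]; exact hQ')
    (Fintype.card K ^ 2 - ((Fintype.card K - (e * (2 * m) - 1)) *
      (Fintype.card K - Fintype.card K / Fintype.card F) - 1)) (Nat.sub_le _ _)
  rw [hcD] at hex
  generalize hAdef : (Fintype.card K - (e * (2 * m) - 1)) * (Fintype.card K - Fintype.card K / Fintype.card F) = A at *
  obtain ⟨ρ, H, hH⟩ := hex (by omega)
  have hcB : Fintype.card (Fin e → K) = Fintype.card K ^ e := by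
    rw [Fintype.card_fun, Fintype.card_fin]
  have hah : (A - 1) + (Fintype.card K ^ 2 - (A - 1)) = Fintype.card (K × K) := by
    rw [Fintype.card_prod, ← pow_two]
    omega
  have hk0 : (0 : ℝ) < (Fintype.card K ^ e : ℕ) := by
    exact_mod_cast Nat.one_le_pow _ _ hK1
  have h1 := push_head H hah x0 h0 P φ p T w (Fintype.card K) hφ hK1 hm2 (by rw [hcB]; exact hk)
    (by
      rw [hcB]
      refine hT.trans ?_
      push_cast
      have h2 : (1 - 1 / (Fintype.card F : ℝ) - δ) ≤ 1 := by
        have : 0 < 1 / (Fintype.card F : ℝ) := by positivity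
        linarith
      calc (1 - 1 / (Fintype.card F : ℝ) - δ) * ((Fintype.card K : ℝ) ^ e * (Fintype.card K : ℝ) ^ 2)
          ≤ 1 * ((Fintype.card K : ℝ) ^ e * (Fintype.card K : ℝ) ^ 2) :=
            mul_le_mul_of_nonneg_right h2 (by positivity)
        _ = (Fintype.card K : ℝ) ^ 2 * (Fintype.card K : ℝ) ^ e := by ring)
    (by
      rw [hcB, Nat.sub_add_cancel hp1, ← div_le_iff₀ hk0]
      exact hrip.trans (by linarith))
    hcQ hcΓ hw
  have h2 : ∀ J : (Fin e → K) × (K × K) → F, wd H J = table J := by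
    intro J
    funext b
    rw [wd, hH]
    rfl
  simp only [h2] at h1
  rw [hcB] at h1
  push_cast at h1
  exact h1

end Pool.Agent.Helper98.NB
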